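import Pool.Agent.Y230.TL.Fin
import Pool.Agent.Y230.TL.A
import Pool.Agent.Y230.TL.U
import Pool.Agent.Y64.TL.ExpB
import Pool.Agent.Y475.TL.L
import Pool.Agent.Y448.TL.J

/-!
# The monodromy conjecture at the origin for Thom-Sebastiani sums with nondegenerate polynomials

For every pole `s₀` of the local topological zeta function of `F` at the origin some `s₀ - i`, `i ∈ ℕ`, is
a root of the local Bernstein-Sato polynomial of `F`, for the following germs `F`; by the theorems of
Malgrange and Kashiwara `exp(2 π i s₀)` is an eigenvalue of the monodromy of `F` at some point near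
the origin.

Let `𝓘` and `𝓗` be the least classes of germs of ideals and of hypersurfaces at the origin with the
following properties.

* `𝓘` contains the principal ideals `(g)`, `g(0) = 0`, with `g` nondegenerate with respect to its Newton
  polytope (no condition on the coefficients besides nondegeneracy); the unit ideal; the powers
  `(x ^ m)`; all non-zero ideals of `ℂ[x, y]`; the ideals of `ℂ[x₀, x₁, x₂]` generated by forms of the
  same degree, three of which are algebraically independent; the ideals generated by forms of the
  same degree without a common zero outside the origin; the principal ideals `(g)` with very general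
  coefficients at the vertices of the Newton polyhedron; the principal ideals `(h)` with `h` in `𝓗`;
  and `𝓘` is closed under sums and products in disjoint sets of variables.
* `𝓗` contains the nondegenerate polynomials, the plane curves, and the polynomials with very general
  coefficients at the vertices of the Newton polyhedron, if their zeta function has at most a simple
  pole at `-1`; for `(f_j)` in `𝓘` and `g` in `𝓗`, `g(0) = 0`, it contains `∑ y_j f_j(x)` and
  `∑ y_j f_j(x) + g(z)`, with new variables `y_j`; and `𝓗` is closed under dropping variables which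
  do not occur.

The second part treats `∏ t, F_t ^ a t`, `F_t = ∑_j y_{t,j} f_{t,j}(x)`, for the ideals
`∏ t, (f_{t,j})_j ^ a t` in `𝓘`.

The theorem is a finished theorem of the starting library (`Pool.Agent.Y230.TL.tl_weak`,
`tl_weak_pow`), where only its analogue for the smaller class without the nondegenerate polynomials,
with the stronger conclusion `b(s₀) = 0`, was stated as a result
(`MP_6163c8_ag.ThomSebastianiLocal`).
-/

set_option autoImplicit false

namespace Pool.Agent.Results.MP_aa7fc1_ag.ThomSebastianiLocal

open MvPolynomial Pool.Agent.W574.SM Pool.Agent.W574.RO Pool.Agent.H628R4.TP Pool.Agent.TH192.DT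
  Pool.Agent.Y229 Pool.Agent.Y230.TL

/-- **The monodromy conjecture at the origin for Thom-Sebastiani sums.** Let
`TT (Fi WeakLocal) WeakHyp c A Z` be the classes of germs of ideals (`c = false`) and of
hypersurfaces (`c = true`) at the origin with their local topological zeta functions `Z` which are
obtained from the ideals in the first class (with finitely many variables, `Fi`) and the
hypersurfaces in the second class, which both contain the nondegenerate polynomials, by sums and
products in disjoint sets of variables, by `∑ y_j f_j(x)` and by `∑ y_j f_j(x) + g(z)`.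

(1) Let `F` be a polynomial with `TT (Fi WeakLocal) WeakHyp false (F) Z`, and let `b` satisfy a
functional equation `b(s) F ^ s = P(s) F ^ (s + 1)`, where `P(s)` is a differential operator with formal
power series coefficients. Then for every pole `s₀` of `Z` some `s₀ - i`, `i ∈ ℕ`, is a root of `b`.

(2) Let the `f_{t,j}` be polynomials in finitely many variables `x_i`, let
`F_t = ∑_j y_{t,j} f_{t,j}(x)` (`blockForm`) and `F = ∏ t, F_t ^ a t` (`powProd`), `a t ≥ 1`, and let
the ideal `∏ t, (f_{t,j})_j ^ a t`, which is generated by the family `powFam a f`, be in the class, with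
the local topological zeta function `Z'`. The local topological zeta function of `F` at the origin is
`Z' ∏ t, 1 / (1 + a t s)`. Let `b` satisfy a functional equation of `F` as in (1). Then
for every pole `s₀` of `Z' ∏ t, 1 / (1 + a t s)` some `s₀ - i`, `i ∈ ℕ`, is a root of `b`. -/
theorem result :
    (∀ (σ : Type) (F : MvPolynomial σ ℂ) (Z : RatFunc ℂ),
      TT (Fi WeakLocal) WeakHyp false ⟨σ, Fin 1, fun _ => F⟩ Z →
      ∀ b : Polynomial ℂ, IsLocalBFunction F b →
      ∀ s₀ : ℂ, Z.denom.eval s₀ = 0 → ∃ i : ℕ, b.eval (s₀ - i) = 0) ∧
    (∀ (σ T : Type) [Finite σ] [Fintype T] [DecidableEq T] [Nonempty T] (κ : T → Type)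
      [∀ t, Fintype (κ t)] (a : T → ℕ), (∀ t, 1 ≤ a t) →
      ∀ (f : (t : T) → κ t → MvPolynomial σ ℂ) (Z' : RatFunc ℂ),
      TT (Fi WeakLocal) WeakHyp false (powFam a f) Z' →
      ∀ b : Polynomial ℂ, IsLocalBFunction (powProd a f) b →
      ∀ s₀ : ℂ, (Z' * ∏ t, fac (a t) 1).denom.eval s₀ = 0 → ∃ i : ℕ, b.eval (s₀ - i) = 0) := by
  classical
  have hJ : StJ := Pool.Agent.Y448.TL.tJ tA Pool.Agent.Y64.TL.tB
  have hU : StU := tU Pool.Agent.Y64.TL.tB
  have hL : StL := Pool.Agent.Y475.TL.tL
  refine ⟨fun σ F Z h b hb s₀ hs => tl_weak hJ hU hL F Z h b hb s₀ hs, ?_⟩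
  intro σ T _ _ _ _ κ _ a ha f Z' h b hb s₀ hs
  exact tl_weak_pow hJ hU hL a ha f Z' h b hb s₀ hs

end Pool.Agent.Results.MP_aa7fc1_ag.ThomSebastianiLocal
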