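import Pool.Agent.Q59.TR.TopFin

/-!
# The monodromy conjecture for local topological zeta functions: reduction to trilinear polynomials

Let `f ∈ ℂ[x_1, …, x_n]`, `f(0) = 0`. For `κ ≥ κ(f)` the polynomial `f(x) + y_1 z_1 + ⋯ + y_κ z_κ` becomes,
by an automorphism of the polynomial ring which fixes the origin, a polynomial `G` of the form
`∑ a_{ijk} x_i y_j z_k` with `x_0 = y_0 = z_0 = 1`; its germ is, up to a unit, the germ of the cubic form
`∑ a_{ijk} x_i y_j z_k` at a point. The poles of the local topological zeta functions and the classes of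
the roots of the local Bernstein-Sato polynomials modulo `ℤ` (the logarithms of the eigenvalues of
the monodromy at the points near the origin, by the theorems of Malgrange and Kashiwara) of `f` and
`G` correspond to each other (up to integers). So the conjecture for the germs of all
polynomials is equivalent to the conjecture for the germs of the trilinear ones.

The topological zeta function is defined as by Denef and Loeser, from the motivic zeta function
`Z_mot(T) = ∑_d [X_d] 𝕃 ^ (-n d) T ^ d` in `𝓜[[T]]`, `X_d` the set of the `d`-jets with origin `0` on which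
`f` has the order `d` (`zetaG f {0} {a | a ≠ 0}`), `𝓜` the Grothendieck ring of complex varieties,
localised at `𝕃`: `Z_top(s) = χ(Z_mot(𝕃 ^ (-s)))` for `s = 1, 2, 3, …`. For this, let `E` be a homomorphism
from `𝓜` to a domain `R` with `E(𝕃) ≠ 1`, such as the Hodge-Deligne polynomial `E(u, v)`, and `ε` a
homomorphism from `R` to `ℂ` with `ε(E(𝕃)) = 1`, such as `u, v ↦ 1`, so that `ε ∘ E` is the Euler
characteristic `χ` (`IsTopZeta`).

Method. The new variables are the words `w` in the letters `1, …, n` of length at most the degree of `f`;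
the relations `l_w` are `V_{i w} - V_w c_i` and `c_j - x_j`. Modulo the relations `f` is linear in the
words: `f + ∑ q_w l_w = λ`, and `λ + ∑ y_w l_w = f + ∑ (y_w + q_w) l_w` where `x, l` is a system of
coordinates. The relation of the classes of the jets of `f` and `f + y z` is from the starting library
(`Pool.Agent.Y229.MS`); it gives `χ(W) - Z_{f + y z}(s) = (χ(W) - Z_f(s + 1)) s (s + 2) / (s + 1) ^ 2`
(`W` the set of the origins). No resolution of singularities is used.
The jets with origin at the points `(0, y, z) ≠ 0` only contribute a function `a + t / (s + 1)`: at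
these points a partial derivative does not vanish.
-/

set_option autoImplicit false

namespace Pool.Agent.Results.MP_aa7fc1_ag.TrilinearReduction

open MvPolynomial Pool.Agent.W375.MG Pool.Agent.W428.MOT Pool.Agent.H628R4.TP Pool.Agent.TH192.MU

/-- The monodromy conjecture for the germ of `f` at the origin: for every pole `s₀` of the local
topological zeta function of `f` and every polynomial `b` with `b(s) f ^ s = P(s) f ^ (s + 1)`, `P(s)` a
differential operator with (formal, in particular convergent) power series as coefficients,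
polynomial in `s` (`IsLocalBFunction`), in particular for the local Bernstein-Sato polynomial, some
`s₀ + i`, `i ∈ ℤ`, is a root of `b`; by the theorems of Malgrange and Kashiwara, `exp(2 π i s₀)` is an
eigenvalue of the monodromy of `f` at some point near the origin. -/
def WeakTop0 {R : Type} [CommRing R] (E : MK ℂ →+* R) (ε : R →+* ℂ) {n : ℕ}
    (f : MvPolynomial (Fin n) ℂ) : Prop :=
  ∀ Z : RatFunc ℂ, IsTopZeta E ε (zetaG f {0} {a | a ≠ 0}) Z →
    ∀ s₀ : ℂ, Z.denom.eval s₀ = 0 → ∀ b : Polynomial ℂ, IsLocalBFunction f b →
      ∃ i : ℤ, b.eval (s₀ + (i : ℂ)) = 0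

/-- `f = ∑ a_{ijk} x_i y_j z_k` with `x_0 = y_0 = z_0 = 1`: the variables can be coloured with three
colours such that every monomial of `f` is of degree at most one in the variables of each colour. -/
def Trilinear {n : ℕ} (f : MvPolynomial (Fin n) ℂ) : Prop :=
  ∃ col : Fin n → Fin 3, ∀ w ∈ f.support, ∀ g : Fin 3,
    ∑ i ∈ Finset.univ.filter (fun i => col i = g), w i ≤ 1

/-- **Reduction of the monodromy conjecture for local topological zeta functions to trilinear
polynomials.** -/
theorem result (R : Type) [CommRing R] [IsDomain R] (E : MK ℂ →+* R) (ε : R →+* ℂ)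
    (hε : ε (E ((Lu ℂ : (MK ℂ)ˣ) : MK ℂ)) = 1) (hE : E ((Lu ℂ : (MK ℂ)ˣ) : MK ℂ) ≠ 1) :
    (∀ (n : ℕ) (f : MvPolynomial (Fin n) ℂ), f.totalDegree ≠ 0 → constantCoeff f = 0 →
      WeakTop0 E ε f) ↔
    ∀ (n : ℕ) (f : MvPolynomial (Fin n) ℂ), f.totalDegree ≠ 0 → constantCoeff f = 0 →
      Trilinear f → WeakTop0 E ε f :=
  ⟨fun h _ f hf h0 _ => h _ f hf h0, fun h _ f hf h0 Z hZ s₀ hs b hb => by
    obtain ⟨i, -, h2⟩ := Pool.Agent.Q59.TR.topL_transfer hε hE (I := Set.univ) (Or.inr rfl)
      (fun n f hf h0 hT Z hZ s₀ hs b hb => by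
        obtain ⟨i, hi⟩ := h n f hf h0 hT Z hZ s₀ hs b hb
        exact ⟨i, Set.mem_univ _, hi⟩) f hf h0 Z hZ s₀ hs b hb
    exact ⟨i, h2⟩⟩

end Pool.Agent.Results.MP_aa7fc1_ag.TrilinearReduction
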